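import Pool.Agent.V114.ClonRing

/-!
# MP_d8c2c9: clonoids between finite modules of coprime order

We prove Q1: for all finite modules `A` (over a ring `R`) and `B` (over a ring `S`) of coprime
order, the set of clonoids from `A` to `B` is finite.
-/

namespace Pool.Agent.Results.MP_d8c2c9_al.ClonoidsFinite

/-- The finitary operations from `A` to `B`: a pair `⟨n, f⟩` is an operation `f` of arity
`n + 1` (so all arities `≥ 1` occur). -/
abbrev Op (A B : Type*) := Σ n : ℕ, ((Fin (n + 1) → A) → B)

/-- A clonoid from the `R`-module `A` to the `S`-module `B`. -/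
structure IsClonoid (R S : Type*) [Ring R] [Ring S] {A B : Type*} [AddCommGroup A] [Module R A]
    [AddCommGroup B] [Module S B] (C : Set (Op A B)) : Prop where
  /-- closed under permuting and identifying variables and adding dummy variables -/
  minor : ∀ (n m : ℕ) (σ : Fin (n + 1) → Fin (m + 1)) (f : (Fin (n + 1) → A) → B),
    (⟨n, f⟩ : Op A B) ∈ C → (⟨m, fun x => f (fun i => x (σ i))⟩ : Op A B) ∈ C
  /-- closed under composition with term operations of `A` on the inside -/
  comp : ∀ (n m : ℕ) (t : Fin (n + 1) → Fin (m + 1) → R) (f : (Fin (n + 1) → A) → B),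
    (⟨n, f⟩ : Op A B) ∈ C → (⟨m, fun x => f (fun i => ∑ j, t i j • x j)⟩ : Op A B) ∈ C
  /-- closed under composition with term operations of `B` on the outside -/
  lin : ∀ (k m : ℕ) (c : Fin (m + 1) → S) (f : Fin (m + 1) → (Fin (k + 1) → A) → B),
    (∀ i, (⟨k, f i⟩ : Op A B) ∈ C) → (⟨k, fun x => ∑ i, c i • f i x⟩ : Op A B) ∈ C

section basic

variable {R S : Type*} [Ring R] [Ring S] {A B : Type*} [AddCommGroup A] [Module R A]
    [AddCommGroup B] [Module S B] {C : Set (Op A B)}

lemma IsClonoid.zero (hC : IsClonoid R S C) (hne : C.Nonempty) (n : ℕ) :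
    (⟨n, 0⟩ : Op A B) ∈ C := by
  obtain ⟨⟨m, f⟩, hf⟩ := hne
  have h1 := hC.minor m n (fun _ => 0) f hf
  have h2 := hC.lin n 0 (fun _ => 0) (fun _ => _) (fun _ => h1)
  have h3 : (fun x => ∑ i : Fin (0 + 1), (0 : S) • (fun x : Fin (n + 1) → A =>
      f (fun _ => x 0)) x) = (0 : (Fin (n + 1) → A) → B) := by
    funext x
    simp
  rw [h3] at h2
  exact h2

lemma IsClonoid.add (hC : IsClonoid R S C) {n : ℕ} {f g : (Fin (n + 1) → A) → B}
    (hf : (⟨n, f⟩ : Op A B) ∈ C) (hg : (⟨n, g⟩ : Op A B) ∈ C) :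
    (⟨n, f + g⟩ : Op A B) ∈ C := by
  have h2 := hC.lin n 1 (fun _ => 1) ![f, g] (fun i => by
    refine Fin.cases ?_ (fun j => ?_) i
    · exact hf
    · rw [Subsingleton.elim j 0]; exact hg)
  have h3 : (fun x => ∑ i : Fin (1 + 1), (1 : S) • (![f, g] : Fin 2 → _) i x) = f + g := by
    funext x
    rw [Fin.sum_univ_succ]
    simp
  rw [h3] at h2
  exact h2

lemma IsClonoid.nsmul (hC : IsClonoid R S C) {n : ℕ} {f : (Fin (n + 1) → A) → B} (c : ℕ)
    (hf : (⟨n, f⟩ : Op A B) ∈ C) : (⟨n, c • f⟩ : Op A B) ∈ C := by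
  have h2 := hC.lin n 0 (fun _ => (c : S)) (fun _ => f) (fun _ => hf)
  have h3 : (fun x => ∑ i : Fin (0 + 1), (c : S) • f x) = c • f := by
    funext x
    simp [Nat.cast_smul_eq_nsmul]
  rw [h3] at h2
  exact h2

lemma IsClonoid.neg (hC : IsClonoid R S C) {n : ℕ} {f : (Fin (n + 1) → A) → B}
    (hf : (⟨n, f⟩ : Op A B) ∈ C) : (⟨n, -f⟩ : Op A B) ∈ C := by
  have h2 := hC.lin n 0 (fun _ => (-1 : S)) (fun _ => f) (fun _ => hf)
  have h3 : (fun x => ∑ i : Fin (0 + 1), (-1 : S) • f x) = -f := by
    funext x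
    simp
  rw [h3] at h2
  exact h2

/-- the `(n+1)`-ary part of a nonempty clonoid -/
def part (hC : IsClonoid R S C) (hne : C.Nonempty) (n : ℕ) :
    AddSubgroup ((Fin (n + 1) → A) → B) where
  carrier := {f | (⟨n, f⟩ : Op A B) ∈ C}
  zero_mem' := hC.zero hne n
  add_mem' hf hg := hC.add hf hg
  neg_mem' hf := hC.neg hf

lemma mem_part (hC : IsClonoid R S C) (hne : C.Nonempty) (n : ℕ) (f : (Fin (n + 1) → A) → B) :
    f ∈ part hC hne n ↔ (⟨n, f⟩ : Op A B) ∈ C := Iff.rfl

end basic

section chains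

universe u v

variable {R S : Type*} [Ring R] [Ring S] {A : Type u} {B : Type v} [AddCommGroup A] [Module R A]
    [AddCommGroup B] [Module S B] [Finite A] [Finite B]

open V114.Clon

/-- Descending chain condition. -/
lemma dcc (C : ℕ → Set (Op A B)) (hC : ∀ i, IsClonoid R S (C i)) (hne : ∀ i, (C i).Nonempty)
    (hmono : ∀ i j, i ≤ j → C j ⊆ C i) : ∃ i, ∀ j, i ≤ j → C i ⊆ C j := by
  classical
  let : LinearOrder A := LinearOrder.lift' (Finite.equivFin A) (Finite.equivFin A).injective
  obtain ⟨i, hi⟩ := stable' (S := A) (M := B)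
    (fun i n w => {b | ∃ f : (Fin (n + 1) → A) → B, (⟨n, f⟩ : Op A B) ∈ C i ∧
      (∀ v : Fin (n + 1) → A, toLex v < toLex w → f v = 0) ∧ f w = b})
    (fun i j n w hij => by
      rintro b ⟨f, hf, h1, h2⟩
      exact ⟨f, hmono i j hij hf, h1, h2⟩)
    (by
      rintro i n m w w' ⟨e, φ, he1, he2, he3⟩ b ⟨f, hf, h1, h2⟩
      have hw' : w' = w ∘ φ := funext he3
      refine ⟨fun x => f (fun i => x (φ i)), (hC i).minor m n φ f hf, fun v hv => ?_, ?_⟩
      · apply h1
        rw [hw']
        exact Emb.lex e φ he1 he2 v w hv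
      · rw [← h2, hw']
        rfl)
  refine ⟨i, fun j hij => ?_⟩
  rintro ⟨n, f⟩ hf
  have hle : part (hC j) (hne j) n ≤ part (hC i) (hne i) n := fun g hg => hmono i j hij hg
  have : Finite (Lex (Fin (n + 1) → A)) := inferInstanceAs (Finite (Fin (n + 1) → A))
  have := lead (W := Lex (Fin (n + 1) → A)) (part (hC j) (hne j) n) (part (hC i) (hne i) n) hle
    (T := { toFun := fun f w => f (ofLex w), map_zero' := rfl, map_add' := fun _ _ => rfl })
    (fun f hf => hf)
    (fun w f hf hv => by
      obtain ⟨g, hg1, hg2, hg3⟩ := hi j hij n (ofLex w) ⟨f, hf, hv, rfl⟩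
      exact ⟨g, hg1, hg2, hg3⟩)
  exact (mem_part (hC j) (hne j) n f).1 (this ▸ hf)

/-- Ascending chain condition. -/
lemma acc (h : Nat.Coprime (Nat.card A) (Nat.card B)) (C : ℕ → Set (Op A B))
    (hC : ∀ i, IsClonoid R S (C i)) (hne : ∀ i, (C i).Nonempty)
    (hmono : ∀ i j, i ≤ j → C i ⊆ C j) : ∃ i, ∀ j, i ≤ j → C j ⊆ C i := by
  classical
  obtain ⟨O, _, _, M, _, _, ι, hfin, hι, hM, hCh, hsep, hcard⟩ := exists_good A B
  let : Fintype A := Fintype.ofFinite A
  let : Fintype (Ch A O) := Fintype.ofFinite _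
  let : LinearOrder (Ch A O) :=
    LinearOrder.lift' (Finite.equivFin (Ch A O)) (Finite.equivFin (Ch A O)).injective
  -- numbers coprime to `|B|` act injectively on `M`
  have hcop : ∀ c : ℕ, Nat.Coprime c (Nat.card B) → ∀ m : M, c • m = 0 → m = 0 := by
    intro c hc m hm
    have h1 : addOrderOf m ∣ c := addOrderOf_dvd_of_nsmul_eq_zero hm
    have h2 : addOrderOf m ∣ Nat.card B := addOrderOf_dvd_of_nsmul_eq_zero (hM m)
    have h3 : addOrderOf m = 1 := Nat.dvd_one.1 (hc ▸ Nat.dvd_gcd h1 h2)
    exact AddMonoid.addOrderOf_eq_one_iff.1 h3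
  have hA : ∀ m : M, Nat.card A • m = 0 → m = 0 := hcop _ h
  have hinj : ∀ (k : ℕ) (f : (Fin k → A) → B), FT (O := O) k (fun x => ι (f x)) = 0 → f = 0 := by
    intro k f hf
    have h1 := FT_inj (O := O) hsep (fun m hm => by
      rw [← Nat.card_eq_fintype_card, hcard] at hm
      exact hA m hm) (fun x => ι (f x)) hf
    funext x
    exact hι (by simpa using congrFun h1 x)
  obtain ⟨i, hi⟩ := stable (S := Ch A O) (M := M)
    (fun i n w => {b | ∃ f : (Fin (n + 1) → A) → B, (⟨n, f⟩ : Op A B) ∈ C i ∧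
      (∀ v : Fin (n + 1) → Ch A O, toLex v < toLex w → FT (n + 1) (fun x => ι (f x)) v = 0) ∧
        FT (n + 1) (fun x => ι (f x)) w = b})
    (fun i j n w hij => by
      rintro b ⟨f, hf, h1, h2⟩
      exact ⟨f, hmono i j hij hf, h1, h2⟩)
    (by
      rintro i n m w w' ⟨e, φ, he1, he2, he3⟩ b ⟨f, hf, h1, h2⟩
      have hw' : w' = w ∘ φ := funext he3
      obtain ⟨c, hc, hFT⟩ := exists_card (A := A) (O := O) (M := M) e φ he1
      have hcB : Nat.Coprime c (Nat.card B) := by
        refine Nat.Coprime.coprime_dvd_left hc ?_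
        rw [← Nat.card_eq_fintype_card]
        exact Nat.Coprime.pow_left _ h
      obtain ⟨c', hc'⟩ : ∃ c' : ℕ, ∀ m : M, (c' * c) • m = m := by
        by_cases hB : 1 < Nat.card B
        · obtain ⟨c', -, hc'⟩ := Nat.exists_mul_mod_eq_one_of_coprime hcB hB
          refine ⟨c', fun m => ?_⟩
          have h5 := Nat.div_add_mod (c * c') (Nat.card B)
          rw [hc'] at h5
          rw [mul_comm, ← h5, add_smul, one_smul, mul_comm, mul_smul, hM, smul_zero, zero_add]
        · refine ⟨1, fun m => ?_⟩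
          have h5 : Nat.card B = 1 := le_antisymm (not_lt.1 hB) Nat.card_pos
          have h6 : ∀ m : M, m = 0 := by
            intro m
            have := hM m
            rwa [h5, one_smul] at this
          rw [h6 m, smul_zero]
      have hpush : (⟨m, fun y => f (push φ y)⟩ : Op A B) ∈ C i := by
        have h3 := (hC i).comp n m (fun i j => if φ j = i then 1 else 0) f hf
        have h4 : (fun y => f (push φ y)) =
            fun x => f (fun i => ∑ j, (if φ j = i then (1 : R) else 0) • x j) := by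
          funext y
          congr 1
          funext i
          simp [push]
        rw [h4]
        exact h3
      have hg := (hC i).nsmul c' hpush
      have hcalc : ∀ β : Fin (m + 1) → Ch A O,
          FT (m + 1) (fun x => ι ((c' • fun y => f (push φ y)) x)) β =
            c' • FT (m + 1) (fun y => ι (f (push φ y))) β := by
        intro β
        have : (fun x => ι ((c' • fun y => f (push φ y)) x)) =
            c' • (fun y => ι (f (push φ y))) := by
          funext x
          simp
        rw [this, map_nsmul]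
        rfl
      have hFT1 : ∀ α, FT (m + 1) (fun y => ι (f (push φ y))) (α ∘ φ) =
          c • FT (n + 1) (fun x => ι (f x)) α := fun α => hFT (fun x => ι (f x)) α
      have hFT2 : ∀ β : Fin (m + 1) → Ch A O, ¬ β = (β ∘ e) ∘ φ →
          FT (m + 1) (fun y => ι (f (push φ y))) β = 0 := fun β hβ' =>
        FT_push_of_ne e φ he1 (Nat.card A) (fun a => card_nsmul_eq_zero') hA
          (fun x => ι (f x)) β hβ'
      refine ⟨_, hg, fun β hβ => ?_, ?_⟩
      · rw [hcalc]
        by_cases hβ' : β = (β ∘ e) ∘ φ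
        · rw [hβ', hFT1, h1, smul_zero, smul_zero]
          rw [hw'] at hβ
          by_contra hcon
          rcases lt_or_eq_of_le (not_lt.1 hcon) with h4 | h4
          · have := Emb.lex e φ he1 he2 _ _ h4
            rw [← hβ'] at this
            exact lt_asymm this hβ
          · have h5 : w = β ∘ e := h4
            rw [h5, ← hβ'] at hβ
            exact lt_irrefl _ hβ
        · rw [hFT2 β hβ', smul_zero]
      · rw [hcalc, hw', hFT1, h2, smul_smul, hc'])
  refine ⟨i, fun j hij => ?_⟩
  rintro ⟨n, f⟩ hf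
  have hle : part (hC i) (hne i) n ≤ part (hC j) (hne j) n := fun g hg => hmono i j hij hg
  have : Finite (Lex (Fin (n + 1) → Ch A O)) :=
    inferInstanceAs (Finite (Fin (n + 1) → Ch A O))
  have := lead (W := Lex (Fin (n + 1) → Ch A O)) (part (hC i) (hne i) n)
    (part (hC j) (hne j) n) hle
    (T := { toFun := fun f w => FT (n + 1) (fun x => ι (f x)) (ofLex w)
            map_zero' := by
              funext w
              have : (fun x : Fin (n + 1) → A => ι ((0 : (Fin (n + 1) → A) → B) x)) = 0 := by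
                funext x; simp
              rw [this, map_zero]
              rfl
            map_add' := fun f g => by
              funext w
              have : (fun x : Fin (n + 1) → A => ι ((f + g) x)) =
                  (fun x => ι (f x)) + (fun x => ι (g x)) := by
                funext x; simp
              rw [this, map_add]
              rfl })
    (fun f hf => hinj _ f (by
      funext w
      exact congrFun hf (toLex w)))
    (fun w f hf hv => by
      obtain ⟨g, hg1, hg2, hg3⟩ := hi j hij n (ofLex w) ⟨f, hf, hv, rfl⟩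
      exact ⟨g, hg1, hg2, hg3⟩)
  exact (mem_part (hC i) (hne i) n f).1 (this ▸ hf)

end chains

section gencog

variable {R S : Type*} [Ring R] [Ring S] {A B : Type*} [AddCommGroup A] [Module R A]
    [AddCommGroup B] [Module S B]

/-- the clonoid generated by the `(N+1)`-ary part of `D` -/
def gen (R S : Type*) [Ring R] [Ring S] {A B : Type*} [AddCommGroup A] [Module R A]
    [AddCommGroup B] [Module S B] (D : Set (Op A B)) (N : ℕ) : Set (Op A B) :=
  {f | ∀ C : Set (Op A B), IsClonoid R S C → (∀ g, (⟨N, g⟩ : Op A B) ∈ D → (⟨N, g⟩ : Op A B) ∈ C) →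
    f ∈ C}

lemma gen_isClonoid (D : Set (Op A B)) (N : ℕ) : IsClonoid R S (gen R S D N) where
  minor n m σ f hf C hC h := hC.minor n m σ f (hf C hC h)
  comp n m t f hf C hC h := hC.comp n m t f (hf C hC h)
  lin k m c f hf C hC h := hC.lin k m c f fun i => hf i C hC h

lemma gen_mono {D : Set (Op A B)} (hD : IsClonoid R S D) (i j : ℕ) (hij : i ≤ j) :
    gen R S D i ⊆ gen R S D j := by
  intro f hf C hC h
  refine hf C hC fun g hg => ?_
  have h1 := hD.minor i j (Fin.castLE (by omega)) g hg
  have h2 := h _ h1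
  have h3 := hC.minor j i (fun a => if ha : a.1 < i + 1 then ⟨a.1, ha⟩ else 0) _ h2
  have h4 : (fun x : Fin (i + 1) → A => (fun x : Fin (j + 1) → A =>
      g (fun a => x (Fin.castLE (by omega) a)))
      (fun a => x (if ha : a.1 < i + 1 then ⟨a.1, ha⟩ else 0))) = g := by
    funext x
    show g _ = g x
    refine congrArg g (funext fun a => ?_)
    have ha : (Fin.castLE (by omega) a : Fin (j + 1)).1 < i + 1 := a.2
    beta_reduce
    rw [dif_pos ha]
    rfl
  rw [← h4]
  exact h3

lemma mem_gen (D : Set (Op A B)) (n : ℕ) (f : (Fin (n + 1) → A) → B)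
    (hf : (⟨n, f⟩ : Op A B) ∈ D) : (⟨n, f⟩ : Op A B) ∈ gen R S D n :=
  fun _ _ h => h f hf

/-- the clonoid cogenerated by the `(N+1)`-ary part of `D` -/
def cog (R : Type*) [Ring R] {A B : Type*} [AddCommGroup A] [Module R A]
    (D : Set (Op A B)) (N : ℕ) : Set (Op A B) :=
  {f | ∀ t : Fin (f.1 + 1) → Fin (N + 1) → R,
    (⟨N, fun x => f.2 (fun i => ∑ j, t i j • x j)⟩ : Op A B) ∈ D}

lemma cog_isClonoid {D : Set (Op A B)} (hD : IsClonoid R S D) (N : ℕ) :
    IsClonoid R S (cog R D N) where
  minor n m σ f hf t := hf (fun i => t (σ i))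
  comp n m s f hf t := by
    have h1 := hf (fun i k => ∑ j, s i j * t j k)
    have h2 : (fun x : Fin (N + 1) → A =>
        f (fun i => ∑ k, (∑ j, s i j * t j k) • x k)) =
        fun x => f (fun i => ∑ j, s i j • ∑ k, t j k • x k) := by
      funext x
      congr 1
      funext i
      simp only [Finset.sum_smul, Finset.smul_sum, smul_smul]
      rw [Finset.sum_comm]
    simp only [] at h1 ⊢
    rw [h2] at h1
    exact h1
  lin k m c f hf t := hD.lin N m c _ fun i => hf i t

lemma cog_anti {D : Set (Op A B)} (hD : IsClonoid R S D) (i j : ℕ) (hij : i ≤ j) :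
    cog R D j ⊆ cog R D i := by
  induction j, hij using Nat.le_induction with
  | base => exact le_rfl
  | succ j hij ih =>
    refine subset_trans (fun f hf => ?_) ih
    intro t
    have h1 := hf (fun i => Fin.snoc (t i) 0)
    have h2 := hD.minor (j + 1) j (Fin.snoc id 0) _ h1
    have h3 : (fun x : Fin (j + 1) → A => (fun x : Fin (j + 1 + 1) → A =>
        f.2 (fun i => ∑ k, (Fin.snoc (t i) 0 : Fin (j + 1 + 1) → R) k • x k))
        (fun a => x ((Fin.snoc id 0 : Fin (j + 1 + 1) → Fin (j + 1)) a))) =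
        fun x => f.2 (fun i => ∑ k, t i k • x k) := by
      funext x
      show f.2 _ = f.2 _
      refine congrArg f.2 (funext fun i => ?_)
      rw [Fin.sum_univ_castSucc]
      simp
    rw [← h3]
    exact h2

omit [AddCommGroup B] in
lemma cog_self {D : Set (Op A B)} (n : ℕ) (f : (Fin (n + 1) → A) → B)
    (h : (⟨n, f⟩ : Op A B) ∈ cog R D n) : (⟨n, f⟩ : Op A B) ∈ D := by
  have h1 := h (fun i j => if i = j then 1 else 0)
  have h2 : (fun x : Fin (n + 1) → A => f (fun i => ∑ j, (if i = j then (1 : R) else 0) • x j))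
      = f := by
    funext x
    congr 1
    funext i
    simp
  simp only [] at h1
  rw [h2] at h1
  exact h1

end gencog

section final

universe u v

variable {R S : Type*} [Ring R] [Ring S] {A : Type u} {B : Type v} [AddCommGroup A] [Module R A]
    [AddCommGroup B] [Module S B]

lemma isolated [Finite A] [Finite B] (h : Nat.Coprime (Nat.card A) (Nat.card B))
    {D : Set (Op A B)} (hD : IsClonoid R S D) :
    ∃ N, ∀ C : Set (Op A B), IsClonoid R S C →
      (∀ f, (⟨N, f⟩ : Op A B) ∈ C ↔ (⟨N, f⟩ : Op A B) ∈ D) → C = D := by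
  by_cases hne : D.Nonempty
  · have hneD : ∀ n, ∃ f, (⟨n, f⟩ : Op A B) ∈ D := fun n => ⟨0, hD.zero hne n⟩
    obtain ⟨i₁, hi₁⟩ := acc h (fun N => gen R S D N) (gen_isClonoid D)
      (fun N => by
        obtain ⟨f, hf⟩ := hneD N
        exact ⟨⟨N, f⟩, mem_gen D N f hf⟩) (gen_mono hD)
    obtain ⟨i₂, hi₂⟩ := dcc (S := S) (fun N => cog R D N) (cog_isClonoid hD)
      (fun N => by
        obtain ⟨f, hf⟩ := hneD 0
        exact ⟨⟨0, f⟩, fun t => hD.comp 0 N t f hf⟩) (cog_anti hD)
    refine ⟨max i₁ i₂, fun C hC hCD => Set.Subset.antisymm ?_ ?_⟩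
    · rintro ⟨m, f⟩ hf
      have h1 : (⟨m, f⟩ : Op A B) ∈ cog R D (max i₁ i₂) := fun t =>
        (hCD _).1 (hC.comp m _ t f hf)
      have h2 := cog_anti hD i₂ (max i₁ i₂) (le_max_right _ _) h1
      have h3 := hi₂ (max m i₂) (le_max_right _ _) h2
      exact cog_self m f (cog_anti hD m (max m i₂) (le_max_left _ _) h3)
    · rintro ⟨n, f⟩ hf
      have h1 := gen_mono hD n (max n i₁) (le_max_left _ _) (mem_gen (R := R) (S := S) D n f hf)
      have h2 := hi₁ (max n i₁) (le_max_right _ _) h1
      have h3 := gen_mono hD i₁ (max i₁ i₂) (le_max_left _ _) h2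
      exact h3 C hC fun g hg => (hCD g).2 hg
  · refine ⟨0, fun C hC hCD => ?_⟩
    rw [Set.not_nonempty_iff_eq_empty] at hne
    rw [hne]
    by_contra hcon
    have hneC : C.Nonempty := Set.nonempty_iff_ne_empty.2 hcon
    have := (hCD 0).1 (hC.zero hneC 0)
    rw [hne] at this
    exact this

end final

/-- **Finiteness of clonoids between finite coprime modules.** For all finite modules `A` over a
ring `R` and `B` over a ring `S` with `|A|` and `|B|` coprime, the set of clonoids from `A` to `B`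
is finite. -/
theorem result.{u, v, w, z} (R : Type w) (S : Type z) [Ring R] [Ring S] (A : Type u) (B : Type v)
    [AddCommGroup A] [Module R A] [AddCommGroup B] [Module S B] [Finite A] [Finite B]
    (h : Nat.Coprime (Nat.card A) (Nat.card B)) :
    {C : Set (Op A B) | IsClonoid R S C}.Finite := by
  classical
  by_contra hinf
  have hinf' : Infinite {C : Set (Op A B) | IsClonoid R S C} :=
    Set.infinite_coe_iff.2 hinf
  let U : Ultrafilter {C : Set (Op A B) | IsClonoid R S C} := Filter.hyperfilter _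
  let D : Set (Op A B) :=
    {f | ∀ᶠ C in (U : Filter {C : Set (Op A B) | IsClonoid R S C}), f ∈ C.1}
  have hD : IsClonoid R S D :=
    { minor := fun n m σ f hf => hf.mono fun C hC => C.2.minor n m σ f hC
      comp := fun n m t f hf => hf.mono fun C hC => C.2.comp n m t f hC
      lin := fun k m c f hf => (Filter.eventually_all.2 hf).mono fun C hC => C.2.lin k m c f hC }
  obtain ⟨N, hN⟩ := isolated h hD
  have h1 : ∀ᶠ C in (U : Filter {C : Set (Op A B) | IsClonoid R S C}),
      ∀ f, (⟨N, f⟩ : Op A B) ∈ C.1 ↔ (⟨N, f⟩ : Op A B) ∈ D := by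
    rw [Filter.eventually_all]
    intro f
    by_cases hf : (⟨N, f⟩ : Op A B) ∈ D
    · exact Filter.Eventually.mono hf fun C hC => ⟨fun _ => hf, fun _ => hC⟩
    · have h2 : ∀ᶠ C in (U : Filter {C : Set (Op A B) | IsClonoid R S C}),
          ¬ (⟨N, f⟩ : Op A B) ∈ C.1 :=
        Ultrafilter.eventually_not.2 hf
      exact h2.mono fun C hC => ⟨fun h3 => absurd h3 hC, fun h3 => absurd h3 hf⟩
  have h2 : ∀ᶠ C in (U : Filter {C : Set (Op A B) | IsClonoid R S C}), C.1 = D := h1.mono fun C hC => hN C.1 C.2 hC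
  have h3 : {C : {C : Set (Op A B) | IsClonoid R S C} | C.1 = D}.Finite := by
    refine Set.Subsingleton.finite ?_
    intro C hC C' hC'
    exact Subtype.ext (Eq.trans hC (Eq.symm hC'))
  exact Filter.notMem_hyperfilter_of_finite h3 h2

end Pool.Agent.Results.MP_d8c2c9_al.ClonoidsFinite
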